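import Mathlib

/-!
# Laurent polynomials in two variables with the symmetries of Hodge polynomials
-/

set_option autoImplicit false

open AddMonoidAlgebra

namespace Pool.Agent.Q148.HN

/-- Laurent polynomials in two variables `x, y` with integral coefficients. -/
abbrev Lau : Type := AddMonoidAlgebra ℤ (ℤ × ℤ)

/-- The monomial `x ^ p * y ^ q`. -/
noncomputable def mon (p q : ℤ) : Lau := single (p, q) 1

/-- `1 + x y`, the Hodge polynomial of `ℙ¹`. -/
noncomputable def L : Lau := mon 0 0 + mon 1 1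

/-- `x + y`. -/
noncomputable def S : Lau := mon 1 0 + mon 0 1

/-- `(1 + x) (1 + y)`, the Hodge polynomial of elliptic curves. -/
noncomputable def Ell : Lau := mon 0 0 + mon 1 0 + mon 0 1 + mon 1 1

/-- `1 + x y + x² y²`, the Hodge polynomial of `ℙ²`. -/
noncomputable def Pl : Lau := mon 0 0 + mon 1 1 + mon 2 2

/-- The Hodge polynomial of K3 surfaces. -/
noncomputable def K3 : Lau := mon 0 0 + mon 2 0 + 20 * mon 1 1 + mon 0 2 + mon 2 2

/-- The Hodge polynomial of Calabi–Yau threefolds with `h¹¹ = a` and `h²¹ = b`. -/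
noncomputable def CY (a b : ℤ) : Lau :=
  mon 0 0 + (a : Lau) * mon 1 1 + (a : Lau) * mon 2 2 + mon 3 0 + (b : Lau) * mon 2 1 +
    (b : Lau) * mon 1 2 + mon 0 3 + mon 3 3

/-- `x y`. -/
noncomputable def U : Lau := mon 1 1

lemma mon_mul (a b c d : ℤ) : mon a b * mon c d = mon (a + c) (b + d) := by
  simp [mon, single_mul_single]

lemma mon_zero : mon 0 0 = 1 := rfl

lemma ell_eq : Ell = L + S := by
  unfold Ell L S; ring

lemma x_y : mon 1 0 * mon 0 1 = U := by rw [mon_mul]; rfl

lemma L_eq : L = 1 + mon 1 0 * mon 0 1 := by rw [x_y]; rfl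

lemma mon_xy (p q : ℕ) : mon p q = mon 1 0 ^ p * mon 0 1 ^ q := by
  have h1 : ∀ n : ℕ, mon 1 0 ^ n = mon n 0 := by
    intro n
    induction n with
    | zero => simp [mon_zero]
    | succ n ih => rw [pow_succ, ih, mon_mul]; push_cast; simp
  have h2 : ∀ n : ℕ, mon 0 1 ^ n = mon 0 n := by
    intro n
    induction n with
    | zero => simp [mon_zero]
    | succ n ih => rw [pow_succ, ih, mon_mul]; push_cast; simp
  rw [h1, h2, mon_mul]; simp

lemma plane_eq : Pl + U = L * L := by
  have h := mon_xy 1 1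
  have h2 := mon_xy 2 2
  push_cast at h h2
  unfold Pl U L
  rw [h, h2, mon_zero]; ring

lemma k3_eq : K3 = L ^ 2 + S ^ 2 + 16 * U := by
  have h := mon_xy 1 1
  have h1 := mon_xy 2 0
  have h2 := mon_xy 0 2
  have h3 := mon_xy 2 2
  push_cast at h h1 h2 h3
  unfold K3 U L S
  rw [h, h1, h2, h3, mon_zero]; ring

lemma cy_eq (a b : ℤ) :
    CY a b = L ^ 3 + S ^ 3 + ((a - 3 : ℤ) : Lau) * U * L + ((b - 3 : ℤ) : Lau) * U * S := by
  have h11 := mon_xy 1 1
  have h22 := mon_xy 2 2
  have h33 := mon_xy 3 3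
  have h30 := mon_xy 3 0
  have h03 := mon_xy 0 3
  have h21 := mon_xy 2 1
  have h12 := mon_xy 1 2
  push_cast at h11 h22 h33 h30 h03 h21 h12
  unfold CY U L S
  rw [h11, h22, h33, h30, h03, h21, h12, mon_zero]
  push_cast
  ring

lemma coeff_mon (P : Lau) (a b p q : ℤ) : (P * mon a b).coeff (p, q) = P.coeff (p - a, q - b) := by
  unfold mon
  rw [coeff_mul_single_apply]
  simp [sub_eq_add_neg]

lemma coeff_int (P : Lau) (c : ℤ) (g : ℤ × ℤ) : ((c : Lau) * P).coeff g = c * P.coeff g := by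
  rw [← zsmul_eq_mul, coeff_smul]
  simp

lemma coeff_nat (P : Lau) (c : ℕ) (g : ℤ × ℤ) : (P * (c : Lau)).coeff g = c * P.coeff g := by
  rw [mul_comm, ← nsmul_eq_mul, coeff_smul]
  simp

/-- The coefficients of `P L^i S^j`. -/
lemma coeff_LS (P : Lau) (i j : ℕ) (m : ℤ) :
    (P * (L ^ i * S ^ j)).coeff (m, m) = ∑ a ∈ Finset.range (j + 1), (j.choose a : ℤ) *
      ∑ l ∈ Finset.range (i + 1), (i.choose l : ℤ) * P.coeff (m - l - a, m - l - (j - a)) := by
  have hL : L ^ i = ∑ l ∈ Finset.range (i + 1), mon l l * ((i.choose l : ℕ) : Lau) := by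
    have h : L = mon 1 1 + 1 := by unfold L; rw [mon_zero]; ring
    rw [h, add_pow]
    refine Finset.sum_congr rfl fun l _ => ?_
    have h1 := mon_xy 1 1
    push_cast at h1
    rw [one_pow, mul_one, h1, mon_xy]
    ring
  have hS : S ^ j = ∑ a ∈ Finset.range (j + 1), mon a (j - a) * ((j.choose a : ℕ) : Lau) := by
    unfold S
    rw [add_pow]
    refine Finset.sum_congr rfl fun a ha => ?_
    have h1 : ((j : ℤ) - a) = ((j - a : ℕ) : ℤ) := by
      rw [Finset.mem_range] at ha; omega
    rw [h1, mon_xy]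
  have hc : ∀ (s : Finset ℕ) (f : ℕ → Lau) (g : ℤ × ℤ),
      (∑ x ∈ s, f x).coeff g = ∑ x ∈ s, (f x).coeff g := by
    intro s f g
    rw [coeff_sum, Finset.sum_apply']
  rw [hL, hS, mul_comm (∑ l ∈ Finset.range (i + 1), _), Finset.sum_mul_sum, Finset.mul_sum, hc]
  refine Finset.sum_congr rfl fun a _ => ?_
  rw [Finset.mul_sum, hc, Finset.mul_sum]
  refine Finset.sum_congr rfl fun l _ => ?_
  have h1 : P * (mon a (j - a) * ((j.choose a : ℕ) : Lau) * (mon l l * ((i.choose l : ℕ) : Lau))) =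
      P * mon l l * mon a (j - a) * ((i.choose l : ℕ) : Lau) * ((j.choose a : ℕ) : Lau) := by ring
  rw [h1, coeff_nat, coeff_nat, coeff_mon, coeff_mon]
  congr 3
  ring_nf

/-- In the binomial sum only the two extreme terms count. -/
lemma extreme {N : ℤ} (hN : ∀ z : ℤ, N ∣ 2 * z → N ∣ z) (j : ℕ) (g : ℕ → ℤ) (h0 : g j = g 0)
    (h1 : ∀ a, 0 < a → a < j → N ∣ g a)
    (h : N ∣ ∑ a ∈ Finset.range (j + 1), (j.choose a : ℤ) * g a) : N ∣ g 0 := by
  rcases Nat.eq_zero_or_pos j with rfl | hj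
  · simpa using h
  · rw [Finset.sum_range_succ] at h
    obtain ⟨k, rfl⟩ : ∃ k, j = k + 1 := ⟨j - 1, by omega⟩
    rw [Finset.sum_range_succ'] at h
    have h2 : N ∣ ∑ a ∈ Finset.range k, ((k + 1).choose (a + 1) : ℤ) * g (a + 1) :=
      Finset.dvd_sum fun a ha => Dvd.dvd.mul_left (h1 _ (by omega) (by
        rw [Finset.mem_range] at ha; omega)) _
    rw [Nat.choose_zero_right, Nat.choose_self, h0, add_assoc] at h
    have h3 := (Int.dvd_add_right h2).mp h
    apply hN
    have h4 : 2 * g 0 = ((1 : ℕ) : ℤ) * g 0 + ((1 : ℕ) : ℤ) * g 0 := by push_cast; ring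
    rw [h4]
    exact h3

/-- The middle coefficients of all `P L^i S^j` with `i + j ≤ K` determine the coefficients of `P` near
the middle. -/
lemma near_middle {N : ℤ} (hN : ∀ z : ℤ, N ∣ 2 * z → N ∣ z) (P : Lau) (n : ℤ)
    (symm : ∀ p q, P.coeff (p, q) = P.coeff (q, p))
    (serre : ∀ p q, P.coeff (p, q) = P.coeff (n - p, n - q)) (K : ℕ)
    (h : ∀ (i j : ℕ) (m : ℤ), i + j ≤ K → 2 * m = n + i + j →
      N ∣ (P * (L ^ i * S ^ j)).coeff (m, m)) :
    ∀ (k : ℕ), k ≤ K → ∀ p q : ℤ, (p - q).natAbs + (p + q - n).natAbs = k →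
      N ∣ P.coeff (p, q) := by
  intro k
  induction k using Nat.strong_induction_on with
  | _ k ih =>
    intro hk
    have main : ∀ p q : ℤ, q ≤ p → n ≤ p + q → (p - q).natAbs + (p + q - n).natAbs = k →
        N ∣ P.coeff (p, q) := by
      intro p q hqp hn hpq
      obtain ⟨j, hj⟩ : ∃ j : ℕ, (j : ℤ) = p - q := ⟨(p - q).toNat, by omega⟩
      obtain ⟨i, hi⟩ : ∃ i : ℕ, (i : ℤ) = p + q - n := ⟨(p + q - n).toNat, by omega⟩
      have h1 := h i j p (by omega) (by omega)
      rw [coeff_LS] at h1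
      have low : ∀ (a b : ℕ), a ≤ j → b ≤ i → (0 < a ∧ a < j ∨ 0 < b ∧ b < i) →
          N ∣ P.coeff (p - b - a, p - b - (j - a)) := by
        intro a b ha hb hab
        refine ih ((p - b - a - (p - b - (j - a)) : ℤ).natAbs +
          (p - b - a + (p - b - (j - a)) - n : ℤ).natAbs) ?_ ?_ _ _ rfl
        · omega
        · omega
      have h2 := extreme hN j (fun a => ∑ l ∈ Finset.range (i + 1),
        (i.choose l : ℤ) * P.coeff (p - l - a, p - l - (j - a))) (by
          refine Finset.sum_congr rfl fun l _ => ?_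
          rw [symm]
          simp) (by
          intro a ha haj
          refine Finset.dvd_sum fun l hl => Dvd.dvd.mul_left ?_ _
          rw [Finset.mem_range] at hl
          exact low a l haj.le (by omega) (Or.inl ⟨ha, haj⟩)) h1
      have h3 := extreme hN i (fun l => P.coeff (p - l - (0 : ℕ), p - l - (j - (0 : ℕ)))) (by
          rw [serre, symm]
          congr 2
          · simp only [Nat.cast_zero, sub_zero]; omega
          · simp only [Nat.cast_zero, sub_zero]; omega) (by
          intro l hl hli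
          exact low 0 l (by omega) hli.le (Or.inr ⟨hl, hli⟩)) h2
      have h4 : P.coeff (p - (0 : ℕ) - (0 : ℕ), p - (0 : ℕ) - (j - (0 : ℕ))) = P.coeff (p, q) := by
        congr 2
        · simp
        · simp only [Nat.cast_zero, sub_zero]; omega
      rw [h4] at h3
      exact h3
    intro p q hpq
    rcases le_total q p with h1 | h1 <;> rcases le_total n (p + q) with h2 | h2
    · exact main p q h1 h2 hpq
    · rw [serre, symm]
      exact main _ _ (by omega) (by omega) (by omega)
    · rw [symm]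
      exact main _ _ h1 (by omega) (by omega)
    · rw [serre]
      exact main _ _ (by omega) (by omega) (by omega)

end Pool.Agent.Q148.HN
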