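import Pool.Agent.Q148.HN.Alg

/-!
# Hodge numbers of derived equivalent varieties: the middle Hodge number
-/

set_option autoImplicit false

open AddMonoidAlgebra

namespace Pool.Agent.Q148.HN

/-- Smooth projective complex varieties (`V`: the commutative monoid of the isomorphism classes, for the
product of varieties), their Hodge polynomials and derived equivalence. -/
structure HodgeData (V : Type) where
  /-- the Hodge polynomial `∑ h^{p,q}(X) x^p y^q` -/
  hodge : V → Lau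
  /-- the dimension -/
  dim : V → ℕ
  /-- derived equivalence -/
  deq : V → V → Prop

/-- The Hodge number `h^{p,q}(X)`; it is `0` if `p` or `q` is negative. -/
noncomputable def HodgeData.h {V : Type} (D : HodgeData V) (X : V) (p q : ℤ) : ℤ :=
  (D.hodge X).coeff (p, q)

/-- The standard properties: Künneth formula, Hodge symmetry, Serre duality, and the derived equivalences
`D(X × Z) ≃ D(Y × Z)` for derived equivalent `X, Y`, which have the same dimension and the same Hochschild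
homology. -/
structure IsHodge {V : Type} [CommMonoid V] (D : HodgeData V) : Prop where
  mul : ∀ X Y, D.hodge (X * Y) = D.hodge X * D.hodge Y
  dim_mul : ∀ X Y, D.dim (X * Y) = D.dim X + D.dim Y
  symm : ∀ X p q, D.h X p q = D.h X q p
  serre : ∀ X p q, D.h X p q = D.h X (D.dim X - p) (D.dim X - q)
  supp : ∀ X (p q : ℤ), (p < 0 ∨ q < 0) → D.h X p q = 0
  deq_mul : ∀ X Y Z, D.deq X Y → D.deq (X * Z) (Y * Z)
  deq_dim : ∀ X Y, D.deq X Y → D.dim X = D.dim Y
  hochschild : ∀ X Y, D.deq X Y → ∀ i : ℕ,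
    ∑ k ∈ Finset.range (D.dim X + 1), D.h X (k + i) k =
      ∑ k ∈ Finset.range (D.dim X + 1), D.h Y (k + i) k

/-- `Z` has the dimension `d` and the Hodge polynomial `P`. -/
def Has {V : Type} (D : HodgeData V) (Z : V) (d : ℕ) (P : Lau) : Prop := D.dim Z = d ∧ D.hodge Z = P

/-- The middle Hodge number `h^{m,m}` of the varieties of dimension `2 m` in the class `𝒞` is a derived
invariant modulo `N`. -/
def Mid {V : Type} (D : HodgeData V) (N : ℕ) (𝒞 : Set V) (m : ℕ) : Prop :=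
  ∀ X ∈ 𝒞, ∀ Y, D.deq X Y → D.dim X = 2 * m → D.h X m m ≡ D.h Y m m [ZMOD N]

/-- All Hodge numbers of the varieties in the class `𝒞` are derived invariants. -/
def All {V : Type} (D : HodgeData V) (𝒞 : Set V) : Prop :=
  ∀ X ∈ 𝒞, ∀ Y, D.deq X Y → ∀ p q : ℤ, D.h X p q = D.h Y p q

/-- The class `𝒞` is stable under products with `Z`. -/
def StableMul {V : Type} [CommMonoid V] (𝒞 : Set V) (Z : V) : Prop := ∀ X ∈ 𝒞, X * Z ∈ 𝒞

lemma two_dvd {N : ℕ} (hN : N = 0 ∨ Odd N) (z : ℤ) (h : (N : ℤ) ∣ 2 * z) : (N : ℤ) ∣ z := by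
  rcases hN with rfl | hN
  · simpa using h
  · refine IsCoprime.dvd_of_dvd_mul_left ?_ h
    have h1 : IsCoprime (N : ℤ) (2 : ℕ) := by
      rw [Nat.isCoprime_iff_coprime]
      exact Nat.Coprime.symm (Nat.coprime_two_left.mpr hN)
    exact_mod_cast h1

variable {V : Type} [CommMonoid V] {D : HodgeData V}

lemma coeff_sub' (P Q : Lau) (g : ℤ × ℤ) : (P - Q).coeff g = P.coeff g - Q.coeff g := by
  rw [coeff_sub]; rfl

lemma coeff_add' (P Q : Lau) (g : ℤ × ℤ) : (P + Q).coeff g = P.coeff g + Q.coeff g := by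
  rw [coeff_add]; rfl

lemma pow_mem {𝒞 : Set V} {Z : V} (hZ : StableMul 𝒞 Z) (i : ℕ) {X : V} (hX : X ∈ 𝒞) :
    X * Z ^ i ∈ 𝒞 := by
  induction i with
  | zero => simpa using hX
  | succ i ih => rw [pow_succ, ← mul_assoc]; exact hZ _ ih

lemma dim_one (h : IsHodge D) : D.dim 1 = 0 := by
  have := h.dim_mul 1 1
  rw [mul_one] at this
  omega

lemma dim_pow (h : IsHodge D) (Z : V) (i : ℕ) : D.dim (Z ^ i) = i * D.dim Z := by
  induction i with
  | zero => simp [dim_one h]
  | succ i ih => rw [pow_succ, h.dim_mul, ih]; ring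

lemma hodge_mul_pow (h : IsHodge D) (X Z : V) (i : ℕ) :
    D.hodge (X * Z ^ i) = D.hodge X * D.hodge Z ^ i := by
  induction i with
  | zero => simp
  | succ i ih => rw [pow_succ, ← mul_assoc, h.mul, ih, pow_succ, mul_assoc]

/-- Smaller dimensions. -/
lemma mid_down (h : IsHodge D) {N : ℕ} {𝒞 : Set V} {line plane : V} (hl : Has D line 1 L)
    (hp : Has D plane 2 Pl) (sl : StableMul 𝒞 line) (sp : StableMul 𝒞 plane) {m : ℕ}
    (hm : Mid D N 𝒞 (m + 1)) : Mid D N 𝒞 m := by
  intro X hX Y hXY hd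
  have h1 := hm (X * line * line) (sl _ (sl _ hX)) (Y * line * line)
    (h.deq_mul _ _ _ (h.deq_mul _ _ _ hXY)) (by rw [h.dim_mul, h.dim_mul, hl.1, hd]; ring)
  have h2 := hm (X * plane) (sp _ hX) (Y * plane) (h.deq_mul _ _ _ hXY)
    (by rw [h.dim_mul, hp.1, hd]; ring)
  have key : ∀ Z : V, D.h (Z * line * line) (m + 1 : ℕ) (m + 1 : ℕ) -
      D.h (Z * plane) (m + 1 : ℕ) (m + 1 : ℕ) = D.h Z m m := by
    intro Z
    unfold HodgeData.h
    rw [h.mul, h.mul, h.mul, hl.2, hp.2, ← coeff_sub', mul_assoc, ← mul_sub, ← plane_eq,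
      add_sub_cancel_left]
    unfold U
    rw [coeff_mon]
    push_cast
    simp
  have h3 := h1.sub h2
  rw [key, key] at h3
  exact h3

lemma mid_le (h : IsHodge D) {N : ℕ} {𝒞 : Set V} {line plane : V} (hl : Has D line 1 L)
    (hp : Has D plane 2 Pl) (sl : StableMul 𝒞 line) (sp : StableMul 𝒞 plane) {m : ℕ}
    (hm : Mid D N 𝒞 m) : ∀ m' ≤ m, Mid D N 𝒞 m' := by
  intro m' hle
  induction m, hle using Nat.le_induction with
  | base => exact hm
  | succ k hk ih => exact ih (mid_down h hl hp sl sp hm)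

/-- The symmetries of the difference of the Hodge polynomials. -/
lemma diff_symm (h : IsHodge D) (X Y : V) (p q : ℤ) :
    (D.hodge X - D.hodge Y).coeff (p, q) = (D.hodge X - D.hodge Y).coeff (q, p) := by
  rw [coeff_sub', coeff_sub']
  have h1 := h.symm X p q
  have h2 := h.symm Y p q
  unfold HodgeData.h at h1 h2
  rw [h1, h2]

lemma diff_serre (h : IsHodge D) {X Y : V} (hd : D.dim X = D.dim Y) (p q : ℤ) :
    (D.hodge X - D.hodge Y).coeff (p, q) =
      (D.hodge X - D.hodge Y).coeff (D.dim X - p, D.dim X - q) := by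
  rw [coeff_sub', coeff_sub']
  have h1 := h.serre X p q
  have h2 := h.serre Y p q
  unfold HodgeData.h at h1 h2
  rw [← hd] at h2
  rw [h1, h2]

/-- `E = L + S`: from the products with lines and elliptic curves to all `L^i S^j`. -/
lemma to_S {N : ℤ} (P : Lau) (n K : ℕ)
    (h : ∀ (i j m : ℕ), i + j ≤ K → 2 * m = n + i + j →
      N ∣ (P * (L ^ i * Ell ^ j)).coeff (m, m)) (i j : ℕ) (m : ℤ) (hij : i + j ≤ K)
    (hm : 2 * m = n + i + j) : N ∣ (P * (L ^ i * S ^ j)).coeff (m, m) := by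
  -- induction on `j`, with more powers of `Ell`
  have aux : ∀ (j i c : ℕ), i + j + c ≤ K → 2 * m = n + i + j + c →
      N ∣ (P * (L ^ i * S ^ j * Ell ^ c)).coeff (m, m) := by
    intro j
    induction j with
    | zero =>
      intro i c h1 h2
      obtain ⟨m', rfl⟩ : ∃ m' : ℕ, m = m' := ⟨m.toNat, by omega⟩
      rw [pow_zero, mul_one]
      exact h i c m' (by omega) (by omega)
    | succ j ih =>
      intro i c h1 h2
      have h3 := ih i (c + 1) (by omega) (by push_cast; push_cast at h2; omega)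
      have h4 := ih (i + 1) c (by omega) (by push_cast; push_cast at h2; omega)
      have h5 : P * (L ^ i * S ^ (j + 1) * Ell ^ c) = P * (L ^ i * S ^ j * Ell ^ (c + 1)) -
          P * (L ^ (i + 1) * S ^ j * Ell ^ c) := by
        rw [ell_eq]; ring
      rw [h5, coeff_sub']
      exact dvd_sub h3 h4
  have h1 := aux j i 0 (by omega) (by push_cast; omega)
  rwa [pow_zero, mul_one] at h1

/-- From the middle Hodge number to a range of Hodge numbers. -/
lemma range_of_mid (h : IsHodge D) {N : ℕ} (hN : N = 0 ∨ Odd N) {𝒞 : Set V} {line ell plane : V}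
    (hl : Has D line 1 L) (he : Has D ell 1 Ell) (hp : Has D plane 2 Pl) (sl : StableMul 𝒞 line)
    (se : StableMul 𝒞 ell) (sp : StableMul 𝒞 plane) {m : ℕ} (hm : Mid D N 𝒞 m) {X Y : V}
    (hX : X ∈ 𝒞) (hXY : D.deq X Y) (p q : ℤ) (hp1 : D.dim X - m ≤ p) (hp2 : p ≤ m)
    (hq1 : D.dim X - m ≤ q) (hq2 : q ≤ m) : D.h X p q ≡ D.h Y p q [ZMOD N] := by
  have hd := h.deq_dim X Y hXY
  obtain ⟨K, hK⟩ : ∃ K : ℕ, D.dim X + K = 2 * m := ⟨2 * m - D.dim X, by omega⟩
  have h1 := near_middle (N := N) (two_dvd hN) (D.hodge X - D.hodge Y) (D.dim X) (diff_symm h X Y)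
    (diff_serre h hd) K (fun i j m' hij hm' => to_S _ (D.dim X) K (by
      intro i j e hij he'
      have h2 := mid_le h hl hp sl sp hm e (by omega) (X * line ^ i * ell ^ j)
        (pow_mem se j (pow_mem sl i hX)) (Y * line ^ i * ell ^ j)
        (h.deq_mul _ _ _ (h.deq_mul _ _ _ hXY))
        (by rw [h.dim_mul, h.dim_mul, dim_pow h, dim_pow h, hl.1, he.1]; omega)
      unfold HodgeData.h at h2
      rw [hodge_mul_pow h, hodge_mul_pow h, hodge_mul_pow h, hodge_mul_pow h, hl.2, he.2] at h2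
      have h3 := h2.symm.dvd
      rwa [← coeff_sub', mul_assoc, mul_assoc, ← sub_mul] at h3) i j m' hij hm')
  have h2 := h1 _ (by omega : (p - q).natAbs + (p + q - D.dim X).natAbs ≤ K) p q rfl
  rw [coeff_sub'] at h2
  exact (Int.modEq_of_dvd h2).symm

/-- A bound for the whole range. -/
lemma h_zero (h : IsHodge D) (X : V) (p q : ℤ)
    (hpq : p < 0 ∨ q < 0 ∨ D.dim X < p ∨ D.dim X < q) : D.h X p q = 0 := by
  rcases hpq with h1 | h1 | h1 | h1
  · exact h.supp X p q (Or.inl h1)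
  · exact h.supp X p q (Or.inr h1)
  · rw [h.serre]
    exact h.supp X _ _ (Or.inl (by omega))
  · rw [h.serre]
    exact h.supp X _ _ (Or.inr (by omega))

/-- From the middle Hodge number in dimension `2 m` to all Hodge numbers in the dimensions at most
`m + 1`. -/
lemma all_of_dim (h : IsHodge D) {N : ℕ} (hN : N = 0 ∨ Odd N) {𝒞 : Set V} {line ell plane : V}
    (hl : Has D line 1 L) (he : Has D ell 1 Ell) (hp : Has D plane 2 Pl) (sl : StableMul 𝒞 line)
    (se : StableMul 𝒞 ell) (sp : StableMul 𝒞 plane) {m : ℕ} (hm : Mid D N 𝒞 m) {X Y : V}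
    (hX : X ∈ 𝒞) (hXY : D.deq X Y) (hn : D.dim X ≤ m + 1) (p q : ℤ) :
    D.h X p q ≡ D.h Y p q [ZMOD N] := by
  have hd := h.deq_dim X Y hXY
  have hz : ∀ p q : ℤ, (p < 0 ∨ q < 0 ∨ D.dim X < p ∨ D.dim X < q) →
      D.h X p q ≡ D.h Y p q [ZMOD N] := by
    intro p q hpq
    rw [h_zero h X p q hpq, h_zero h Y p q (by rw [← hd]; exact hpq)]
  have hr := range_of_mid h hN hl he hp sl se sp hm hX hXY
  rcases Nat.lt_or_ge m (D.dim X) with h1 | h1
  swap
  · by_cases hpq : p < 0 ∨ q < 0 ∨ D.dim X < p ∨ D.dim X < q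
    · exact hz p q hpq
    · exact hr p q (by omega) (by omega) (by omega) (by omega)
  have hn' : D.dim X = m + 1 := by omega
  -- the boundary
  have hb : ∀ i : ℕ, i ≤ m + 1 → D.h X i 0 ≡ D.h Y i 0 [ZMOD N] := by
    intro i hi
    have h2 := h.hochschild X Y hXY i
    have e : ∀ Z : V, ∑ k ∈ Finset.range (m + 1 + 1), D.h Z (k + i) k =
        ∑ k ∈ Finset.range (m + 1), D.h Z ((k + 1 : ℕ) + i) (k + 1 : ℕ) + D.h Z i 0 := by
      intro Z
      rw [Finset.sum_range_succ']
      simp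
    rw [hn', e X, e Y] at h2
    have h3 : ∀ Z : V, D.dim Z = m + 1 → D.h Z ((m + 1 - i : ℕ) + i : ℤ) (m + 1 - i : ℕ) =
        D.h Z i 0 := by
      intro Z hZ
      rw [h.serre, h.symm, hZ]
      congr 1
      · push_cast; omega
      · push_cast; omega
    have h4 : ∀ k ∈ Finset.range (m + 1),
        (N : ℤ) ∣ (D.h X ((k + 1 : ℕ) + i) (k + 1 : ℕ) - D.h Y ((k + 1 : ℕ) + i) (k + 1 : ℕ)) -
          (if m - i = k then (if i ≤ m then D.h X i 0 - D.h Y i 0 else 0) else 0) := by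
      intro k hk
      rw [Finset.mem_range] at hk
      by_cases hk' : m - i = k
      · rw [if_pos hk']
        by_cases hi' : i ≤ m
        · rw [if_pos hi']
          have h5 : (k + 1 : ℕ) = m + 1 - i := by omega
          rw [h5, h3 X hn', h3 Y (by rw [← hd, hn']), sub_self]
          exact dvd_zero _
        · rw [if_neg hi', sub_zero]
          exact (hz _ _ (by push_cast; omega)).symm.dvd
      · rw [if_neg hk', sub_zero]
        by_cases hki : k + 1 + i ≤ m
        · exact (hr _ _ (by push_cast; omega) (by push_cast; omega) (by push_cast; omega)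
            (by push_cast; omega)).symm.dvd
        · exact (hz _ _ (by push_cast; omega)).symm.dvd
    have h5 := Finset.dvd_sum h4
    rw [Finset.sum_sub_distrib, Finset.sum_sub_distrib, Finset.sum_ite_eq, if_pos (by
      rw [Finset.mem_range]; omega)] at h5
    have h6 : D.h X i 0 - D.h Y i 0 = -((∑ k ∈ Finset.range (m + 1), D.h X ((k + 1 : ℕ) + i) (k + 1 : ℕ)) -
        ∑ k ∈ Finset.range (m + 1), D.h Y ((k + 1 : ℕ) + i) (k + 1 : ℕ)) := by
      linarith
    refine (Int.modEq_of_dvd ?_).symm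
    split_ifs at h5 with hi'
    · apply two_dvd hN
      have h7 := (dvd_neg (a := (N : ℤ))).mpr h5
      have h8 : -((∑ k ∈ Finset.range (m + 1), D.h X ((k + 1 : ℕ) + i) (k + 1 : ℕ)) -
        ∑ k ∈ Finset.range (m + 1), D.h Y ((k + 1 : ℕ) + i) (k + 1 : ℕ) -
          (D.h X i 0 - D.h Y i 0)) = 2 * (D.h X i 0 - D.h Y i 0) := by
        rw [two_mul]; linarith
      rwa [h8] at h7
    · rw [h6]
      rw [sub_zero] at h5
      exact (dvd_neg (a := (N : ℤ))).mpr h5
  have hb' : ∀ i : ℤ, 0 ≤ i → i ≤ m + 1 → D.h X i 0 ≡ D.h Y i 0 [ZMOD N] := by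
    intro i h2 h3
    obtain ⟨i', rfl⟩ : ∃ i' : ℕ, i = i' := ⟨i.toNat, by omega⟩
    exact hb i' (by omega)
  by_cases hpq : p < 0 ∨ q < 0 ∨ D.dim X < p ∨ D.dim X < q
  · exact hz p q hpq
  push Not at hpq
  by_cases hin : 1 ≤ p ∧ p ≤ m ∧ 1 ≤ q ∧ q ≤ m
  · exact hr p q (by omega) (by omega) (by omega) (by omega)
  have hcase : q = 0 ∨ p = 0 ∨ q = m + 1 ∨ p = m + 1 := by omega
  rcases hcase with rfl | rfl | rfl | rfl
  · exact hb' p (by omega) (by omega)
  · rw [h.symm X, h.symm Y]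
    exact hb' q (by omega) (by omega)
  · have e : ∀ Z : V, D.dim Z = m + 1 → D.h Z p (m + 1) = D.h Z (m + 1 - p) 0 := by
      intro Z hZ
      rw [h.serre, hZ]; push_cast; simp
    rw [e X hn', e Y (by rw [← hd, hn'])]
    exact hb' _ (by omega) (by omega)
  · have e : ∀ Z : V, D.dim Z = m + 1 → D.h Z (m + 1) q = D.h Z (m + 1 - q) 0 := by
      intro Z hZ
      rw [h.serre, h.symm, hZ]; push_cast; simp
    rw [e X hn', e Y (by rw [← hd, hn'])]
    exact hb' _ (by omega) (by omega)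

/-- From the middle Hodge numbers of infinitely many dimensions to all Hodge numbers. -/
lemma all_of_mid (h : IsHodge D) {𝒞 : Set V} {line ell plane : V}
    (hl : Has D line 1 L) (he : Has D ell 1 Ell) (hp : Has D plane 2 Pl) (sl : StableMul 𝒞 line)
    (se : StableMul 𝒞 ell) (sp : StableMul 𝒞 plane) (hm : {m | Mid D 0 𝒞 m}.Infinite) :
    All D 𝒞 := by
  intro X hX Y hXY p q
  have hd := h.deq_dim X Y hXY
  obtain ⟨m, hm, hlt⟩ := hm.exists_gt (D.dim X)
  by_cases hpq : p < 0 ∨ q < 0 ∨ D.dim X < p ∨ D.dim X < q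
  · rw [h_zero h X p q hpq, h_zero h Y p q (by rw [← hd]; exact hpq)]
  · have h1 := range_of_mid h (Or.inl rfl) hl he hp sl se sp hm hX hXY p q (by omega) (by omega)
      (by omega) (by omega)
    simpa using h1

section trivial

/-- The middle coefficients of all `P G E^a K^b C^c` vanish. -/
def V0 (P : Lau) (n : ℤ) (α β : ℤ) (G : Lau) (d : ℤ) : Prop :=
  ∀ (a b c : ℕ) (m : ℤ), 2 * m = n + d + a + 2 * b + 3 * c →
    (P * (G * (Ell ^ a * K3 ^ b * CY α β ^ c))).coeff (m, m) = 0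

variable {P : Lau} {n α β : ℤ} {G G' : Lau} {d : ℤ}

lemma V0.add (h : V0 P n α β G d) (h' : V0 P n α β G' d) : V0 P n α β (G + G') d := by
  intro a b c m hm
  rw [add_mul, mul_add, coeff_add', h a b c m hm, h' a b c m hm, add_zero]

lemma V0.int (h : V0 P n α β G d) (z : ℤ) : V0 P n α β ((z : Lau) * G) d := by
  intro a b c m hm
  have h1 := h a b c m hm
  have h2 : P * ((z : Lau) * G * (Ell ^ a * K3 ^ b * CY α β ^ c)) =
      (z : Lau) * (P * (G * (Ell ^ a * K3 ^ b * CY α β ^ c))) := by ring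
  rw [h2, coeff_int, h1, mul_zero]

lemma V0.of_int {z : ℤ} (hz : z ≠ 0) (h : V0 P n α β ((z : Lau) * G) d) : V0 P n α β G d := by
  intro a b c m hm
  have h1 := h a b c m hm
  have h2 : P * ((z : Lau) * G * (Ell ^ a * K3 ^ b * CY α β ^ c)) =
      (z : Lau) * (P * (G * (Ell ^ a * K3 ^ b * CY α β ^ c))) := by ring
  rw [h2, coeff_int] at h1
  exact (mul_eq_zero.mp h1).resolve_left hz

lemma V0.sub (h : V0 P n α β G d) (h' : V0 P n α β G' d) : V0 P n α β (G - G') d := by
  have h1 := h.add (h'.int (-1))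
  have h2 : G + ((-1 : ℤ) : Lau) * G' = G - G' := by push_cast; ring
  rwa [h2] at h1

lemma V0.ell (h : V0 P n α β G d) : V0 P n α β (Ell * G) (d + 1) := by
  intro a b c m hm
  have h1 := h (a + 1) b c m (by push_cast; omega)
  have h2 : Ell * G * (Ell ^ a * K3 ^ b * CY α β ^ c) =
      G * (Ell ^ (a + 1) * K3 ^ b * CY α β ^ c) := by ring
  rw [h2, h1]

lemma V0.k3 (h : V0 P n α β G d) : V0 P n α β (K3 * G) (d + 2) := by
  intro a b c m hm
  have h1 := h a (b + 1) c m (by push_cast; omega)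
  have h2 : K3 * G * (Ell ^ a * K3 ^ b * CY α β ^ c) =
      G * (Ell ^ a * K3 ^ (b + 1) * CY α β ^ c) := by ring
  rw [h2, h1]

lemma V0.cy (h : V0 P n α β G d) : V0 P n α β (CY α β * G) (d + 3) := by
  intro a b c m hm
  have h1 := h a b (c + 1) m (by push_cast; omega)
  have h2 : CY α β * G * (Ell ^ a * K3 ^ b * CY α β ^ c) =
      G * (Ell ^ a * K3 ^ b * CY α β ^ (c + 1)) := by ring
  rw [h2, h1]

lemma V0.U_iff : V0 P n α β (U * G) (d + 2) ↔ V0 P n α β G d := by
  have key : ∀ (a b c : ℕ) (m : ℤ),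
      (P * (U * G * (Ell ^ a * K3 ^ b * CY α β ^ c))).coeff (m + 1, m + 1) =
        (P * (G * (Ell ^ a * K3 ^ b * CY α β ^ c))).coeff (m, m) := by
    intro a b c m
    have h2 : P * (U * G * (Ell ^ a * K3 ^ b * CY α β ^ c)) =
        P * (G * (Ell ^ a * K3 ^ b * CY α β ^ c)) * mon 1 1 := by unfold U; ring
    rw [h2, coeff_mon]
    simp
  constructor
  · intro h a b c m hm
    rw [← key]
    exact h a b c (m + 1) (by omega)
  · intro h a b c m hm
    have h1 := key a b c (m - 1)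
    rw [sub_add_cancel] at h1
    rw [h1]
    exact h a b c (m - 1) (by omega)

lemma V0.LS' (h : V0 P n α β G d) : V0 P n α β (L * S * G) (d + 2) := by
  have h1 : V0 P n α β (Ell * (Ell * G)) (d + 2) := by
    have := h.ell.ell
    rwa [add_assoc] at this
  have h2 := (h1.sub h.k3).add ((V0.U_iff.mpr h).int 16)
  have h3 : Ell * (Ell * G) - K3 * G + ((16 : ℤ) : Lau) * (U * G) =
      ((2 : ℤ) : Lau) * (L * S * G) := by
    rw [k3_eq, ell_eq]; push_cast; ring
  rw [h3] at h2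
  exact h2.of_int (by norm_num)

lemma V0.LS (hab : α ≠ β) (h : V0 P n α β G d) :
    V0 P n α β (L * G) (d + 1) ∧ V0 P n α β (S * G) (d + 1) := by
  have hE : V0 P n α β (Ell * (Ell * (Ell * G))) (d + 3) := by
    have := h.ell.ell.ell
    rwa [add_assoc, add_assoc] at this
  have hEL : V0 P n α β (Ell * (L * S * G)) (d + 3) := by
    have := h.LS'.ell
    rwa [add_assoc] at this
  have hUE : V0 P n α β (U * (Ell * G)) (d + 3) := by
    have := V0.U_iff.mpr h.ell
    rwa [add_assoc] at this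
  have h1 := ((h.cy.sub hE).add (hEL.int 3)).sub (hUE.int (β - 3))
  have h2 : CY α β * G - Ell * (Ell * (Ell * G)) + ((3 : ℤ) : Lau) * (Ell * (L * S * G)) -
      ((β - 3 : ℤ) : Lau) * (U * (Ell * G)) = ((α - β : ℤ) : Lau) * (U * (L * G)) := by
    rw [cy_eq, ell_eq]; push_cast; ring
  rw [h2] at h1
  have h3 := h1.of_int (sub_ne_zero.mpr hab)
  have h4 : (d + 3 : ℤ) = d + 1 + 2 := by ring
  rw [h4, V0.U_iff] at h3
  refine ⟨h3, ?_⟩
  have h5 := h.ell.sub h3
  have h6 : Ell * G - L * G = S * G := by rw [ell_eq]; ring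
  rwa [h6] at h5

lemma V0.pow (hab : α ≠ β) (h : V0 P n α β 1 0) (i j : ℕ) :
    V0 P n α β (L ^ i * S ^ j) (i + j) := by
  induction i with
  | zero =>
    induction j with
    | zero => simpa using h
    | succ j ih =>
      have h1 := (V0.LS hab ih).2
      have h2 : S * (L ^ 0 * S ^ j) = L ^ 0 * S ^ (j + 1) := by ring
      rw [h2] at h1
      have h3 : ((0 : ℕ) : ℤ) + (j : ℕ) + 1 = ((0 : ℕ) : ℤ) + ((j + 1 : ℕ) : ℤ) := by push_cast; ring
      rwa [h3] at h1
  | succ i ih =>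
    have h1 := (V0.LS hab ih).1
    have h2 : L * (L ^ i * S ^ j) = L ^ (i + 1) * S ^ j := by ring
    rw [h2] at h1
    have h3 : (i : ℤ) + (j : ℕ) + 1 = ((i + 1 : ℕ) : ℤ) + (j : ℕ) := by push_cast; ring
    rwa [h3] at h1

end trivial

/-- Classes that are stable under products with elliptic curves, K3 surfaces and Calabi–Yau
threefolds. -/
lemma all_of_mid_trivial (h : IsHodge D) {𝒞 : Set V} {ell k3 cy : V} {α β : ℤ} (hab : α ≠ β)
    (he : Has D ell 1 Ell) (hk : Has D k3 2 K3) (hc : Has D cy 3 (CY α β)) (se : StableMul 𝒞 ell)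
    (sk : StableMul 𝒞 k3) (sc : StableMul 𝒞 cy) (hm : ∀ m, Mid D 0 𝒞 m) : All D 𝒞 := by
  intro X hX Y hXY p q
  have hd := h.deq_dim X Y hXY
  by_cases hpq : p < 0 ∨ q < 0 ∨ D.dim X < p ∨ D.dim X < q
  · rw [h_zero h X p q hpq, h_zero h Y p q (by rw [← hd]; exact hpq)]
  · have h0 : V0 (D.hodge X - D.hodge Y) (D.dim X) α β 1 0 := by
      intro a b c m hm'
      obtain ⟨m', rfl⟩ : ∃ m' : ℕ, m = m' := ⟨m.toNat, by omega⟩
      have h2 := hm m' (X * ell ^ a * k3 ^ b * cy ^ c)
        (pow_mem sc c (pow_mem sk b (pow_mem se a hX))) (Y * ell ^ a * k3 ^ b * cy ^ c)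
        (h.deq_mul _ _ _ (h.deq_mul _ _ _ (h.deq_mul _ _ _ hXY)))
        (by rw [h.dim_mul, h.dim_mul, h.dim_mul, dim_pow h, dim_pow h, dim_pow h, he.1, hk.1,
              hc.1]; omega)
      unfold HodgeData.h at h2
      rw [hodge_mul_pow h, hodge_mul_pow h, hodge_mul_pow h, hodge_mul_pow h, hodge_mul_pow h,
        hodge_mul_pow h, he.2, hk.2, hc.2] at h2
      have h3 : (D.hodge X - D.hodge Y) * (1 * (Ell ^ a * K3 ^ b * CY α β ^ c)) =
          D.hodge X * Ell ^ a * K3 ^ b * CY α β ^ c - D.hodge Y * Ell ^ a * K3 ^ b * CY α β ^ c := by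
        ring
      rw [h3, coeff_sub', sub_eq_zero]
      simpa using h2
    have h1 := near_middle (N := 0) (fun z hz => by simpa using hz) (D.hodge X - D.hodge Y)
      (D.dim X) (diff_symm h X Y) (diff_serre h hd) (D.dim X) (fun i j m' hij hm' => by
        have h2 := h0.pow hab i j 0 0 0 m' (by push_cast; omega)
        rw [pow_zero, pow_zero, pow_zero, mul_one, mul_one, mul_one] at h2
        rw [h2])
    have h2 := h1 _ (by omega : (p - q).natAbs + (p + q - D.dim X).natAbs ≤ D.dim X) p q rfl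
    rw [coeff_sub', zero_dvd_iff, sub_eq_zero] at h2
    exact h2

end Pool.Agent.Q148.HN
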